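import Mathlib

namespace Pool.Agent.Results.MP_cb4251_co.NoDecomposition

/-- Digraphs on the vertex set `V` are given by their arc sets (no parallel arcs). -/
def Loopless {V : Type} (A : Finset (V × V)) : Prop := ∀ a ∈ A, a.1 ≠ a.2

/-- The spanning digraph `(V, A)` is strongly connected: every vertex reaches every vertex. -/
def Strong {V : Type} (A : Finset (V × V)) : Prop :=
  ∀ u v : V, Relation.ReflTransGen (fun x y => (x, y) ∈ A) u v

/-- `(V, A)` is `k`-arc-strong: it stays strong after removing any fewer than `k` arcs. -/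
def ArcStrong {V : Type} [DecidableEq V] (k : ℕ) (A : Finset (V × V)) : Prop :=
  ∀ X ⊆ A, X.card < k → Strong (A \ X)

/-- Split digraph: `V₁` is independent and the digraph induced on its complement is
semicomplete. -/
def IsSplit {V : Type} (A : Finset (V × V)) : Prop :=
  ∃ V₁ : Set V, (∀ u ∈ V₁, ∀ v ∈ V₁, (u, v) ∉ A) ∧
    (∀ u ∉ V₁, ∀ v ∉ V₁, u ≠ v → (u, v) ∈ A ∨ (v, u) ∈ A)

/-- The degree: number of arcs leaving `v` plus number of arcs entering `v`. -/
def degree {V : Type} [DecidableEq V] (A : Finset (V × V)) (v : V) : ℕ :=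
  (A.filter fun a => a.1 = v).card + (A.filter fun a => a.2 = v).card

/-- Strong arc decomposition: a partition of the arcs into two strong spanning subdigraphs. -/
def HasStrongArcDecomposition {V : Type} [DecidableEq V] (A : Finset (V × V)) : Prop :=
  ∃ A₁ A₂ : Finset (V × V), A₁ ∪ A₂ = A ∧ A₁ ∩ A₂ = ∅ ∧ Strong A₁ ∧ Strong A₂

/-- The digraph on six vertices (16 arcs). -/
def D6 : Finset (Fin 6 × Fin 6) :=
  {(0, 2), (0, 5), (1, 3), (1, 4), (1, 5), (2, 0), (2, 3), (2, 5), (3, 0), (3, 1), (3, 4),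
    (3, 5), (4, 1), (4, 2), (5, 0), (5, 4)}

theorem strong_cut {V : Type} {A : Finset (V × V)} (h : Strong A) (X : V → Prop) {x y : V}
    (hx : X x) (hy : ¬ X y) : ∃ u v, X u ∧ ¬ X v ∧ (u, v) ∈ A := by
  have key : ∀ z, Relation.ReflTransGen (fun x y => (x, y) ∈ A) x z →
      X z ∨ ∃ u v, X u ∧ ¬ X v ∧ (u, v) ∈ A := by
    intro z hz
    induction hz with
    | refl => exact Or.inl hx
    | @tail b c _ hbc ih =>
      rcases ih with ih | ih
      · by_cases hc : X c
        · exact Or.inl hc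
        · exact Or.inr ⟨b, c, ih, hc, hbc⟩
      · exact Or.inr ih
  rcases key y (h x y) with h1 | h1
  · exact absurd h1 hy
  · exact h1

/-- A cut of `D6` with exactly two arcs: both parts of a decomposition use one of them. -/
theorem cut_arcs (X : Fin 6 → Bool) (x y : Fin 6) (hx : X x = true) (hy : X y = false)
    (a b : Fin 6 × Fin 6)
    (hcut : ∀ u v : Fin 6, (u, v) ∈ D6 → X u = true → X v = false → (u, v) = a ∨ (u, v) = b)
    (B : Finset (Fin 6 × Fin 6)) (hB : B ⊆ D6) (hs : Strong B) : a ∈ B ∨ b ∈ B := by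
  obtain ⟨u, v, hu, hv, huv⟩ := strong_cut hs (fun z => X z = true) (x := x) (y := y) hx (by rw [hy]; decide)
  have hv' : X v = false := by simpa using hv
  rcases hcut u v (hB huv) hu hv' with h | h
  · left; rw [← h]; exact huv
  · right; rw [← h]; exact huv

/-- The vertex set reachable in one more step, for deciding strong connectivity. -/
def step (A : Finset (Fin 6 × Fin 6)) (S : Finset (Fin 6)) : Finset (Fin 6) :=
  S ∪ (A.filter fun a => a.1 ∈ S).image Prod.snd

theorem step_sound (A : Finset (Fin 6 × Fin 6)) (u : Fin 6) (S : Finset (Fin 6))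
    (h : ∀ v ∈ S, Relation.ReflTransGen (fun x y => (x, y) ∈ A) u v) :
    ∀ v ∈ step A S, Relation.ReflTransGen (fun x y => (x, y) ∈ A) u v := by
  intro v hv
  rw [step, Finset.mem_union, Finset.mem_image] at hv
  rcases hv with hv | ⟨a, ha, rfl⟩
  · exact h v hv
  · rw [Finset.mem_filter] at ha
    exact (h _ ha.2).tail ha.1

theorem iter_sound (A : Finset (Fin 6 × Fin 6)) (u : Fin 6) (k : ℕ) :
    ∀ v ∈ (step A)^[k] {u}, Relation.ReflTransGen (fun x y => (x, y) ∈ A) u v := by
  induction k with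
  | zero => intro v hv; simp at hv; subst hv; exact Relation.ReflTransGen.refl
  | succ k ih =>
    rw [Function.iterate_succ_apply']
    exact step_sound A u _ ih

theorem strong_of_check (A : Finset (Fin 6 × Fin 6))
    (h : ∀ u v : Fin 6, v ∈ (step A)^[5] {u}) : Strong A :=
  fun u v => iter_sound A u 5 v (h u v)

theorem arcStrong_D6 : ArcStrong 2 D6 := by
  have h1 : ∀ a ∈ D6, ∀ u v : Fin 6, v ∈ (step (D6 \ {a}))^[5] {u} := by decide +kernel
  have h0 : ∀ u v : Fin 6, v ∈ (step (D6 \ ∅))^[5] {u} := by decide +kernel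
  intro X hX hc
  have hc' : X.card = 0 ∨ X.card = 1 := by omega
  rcases hc' with hc' | hc'
  · rw [Finset.card_eq_zero] at hc'
    subst hc'
    exact strong_of_check _ h0
  · rw [Finset.card_eq_one] at hc'
    obtain ⟨a, rfl⟩ := hc'
    exact strong_of_check _ (h1 a (hX (Finset.mem_singleton_self a)))

theorem noDecomposition_D6 : ¬ HasStrongArcDecomposition D6 := by
  rintro ⟨A₁, A₂, hU, hI, h1, h2⟩
  have s1 : A₁ ⊆ D6 := by rw [← hU]; exact Finset.subset_union_left
  have s2 : A₂ ⊆ D6 := by rw [← hU]; exact Finset.subset_union_right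
  have hd : ∀ a, a ∈ A₁ → a ∈ A₂ → False := by
    intro a ha hb
    have : a ∈ A₁ ∩ A₂ := Finset.mem_inter.2 ⟨ha, hb⟩
    rw [hI] at this
    exact absurd this (Finset.notMem_empty a)
  -- the five cuts with two arcs
  have c1 : ∀ B ⊆ D6, Strong B → ((4, 1) : Fin 6 × Fin 6) ∈ B ∨ ((4, 2) : Fin 6 × Fin 6) ∈ B :=
    fun B hB hs => cut_arcs (fun z => decide (z = 4)) 4 0 (by decide) (by decide) _ _
      (by decide +kernel) B hB hs
  have c2 : ∀ B ⊆ D6, Strong B → ((0, 2) : Fin 6 × Fin 6) ∈ B ∨ ((4, 2) : Fin 6 × Fin 6) ∈ B :=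
    fun B hB hs => cut_arcs (fun z => decide (z ≠ 2)) 4 2 (by decide) (by decide) _ _
      (by decide +kernel) B hB hs
  have c3 : ∀ B ⊆ D6, Strong B → ((2, 3) : Fin 6 × Fin 6) ∈ B ∨ ((5, 4) : Fin 6 × Fin 6) ∈ B :=
    fun B hB hs => cut_arcs (fun z => decide (z = 0 ∨ z = 2 ∨ z = 5)) 0 1 (by decide) (by decide)
      _ _ (by decide +kernel) B hB hs
  have c4 : ∀ B ⊆ D6, Strong B → ((2, 3) : Fin 6 × Fin 6) ∈ B ∨ ((4, 1) : Fin 6 × Fin 6) ∈ B :=
    fun B hB hs => cut_arcs (fun z => decide (z = 0 ∨ z = 2 ∨ z = 4 ∨ z = 5)) 0 1 (by decide)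
      (by decide) _ _ (by decide +kernel) B hB hs
  have c5 : ∀ B ⊆ D6, Strong B → ((0, 2) : Fin 6 × Fin 6) ∈ B ∨ ((5, 4) : Fin 6 × Fin 6) ∈ B :=
    fun B hB hs => cut_arcs (fun z => decide (z = 0 ∨ z = 5)) 0 1 (by decide) (by decide) _ _
      (by decide +kernel) B hB hs
  have p1 := c1 _ s1 h1
  have p2 := c2 _ s1 h1
  have p3 := c3 _ s1 h1
  have p4 := c4 _ s1 h1
  have p5 := c5 _ s1 h1
  have q1 := c1 _ s2 h2
  have q2 := c2 _ s2 h2
  have q3 := c3 _ s2 h2
  have q4 := c4 _ s2 h2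
  have q5 := c5 _ s2 h2
  have d1 := hd (4, 1)
  have d2 := hd (4, 2)
  have d3 := hd (0, 2)
  have d4 := hd (2, 3)
  have d5 := hd (5, 4)
  by_cases h42 : ((4, 2) : Fin 6 × Fin 6) ∈ A₁
  · have n42 : ((4, 2) : Fin 6 × Fin 6) ∉ A₂ := fun h => d2 h42 h
    have m41 := q1.resolve_right n42
    have m02 := q2.resolve_right n42
    have n41 : ((4, 1) : Fin 6 × Fin 6) ∉ A₁ := fun h => d1 h m41
    have n02 : ((0, 2) : Fin 6 × Fin 6) ∉ A₁ := fun h => d3 h m02
    have m23 := p4.resolve_right n41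
    have m54 := p5.resolve_left n02
    rcases q3 with h | h
    · exact d4 m23 h
    · exact d5 m54 h
  · have m41 := p1.resolve_right h42
    have m02 := p2.resolve_right h42
    have n41 : ((4, 1) : Fin 6 × Fin 6) ∉ A₂ := fun h => d1 m41 h
    have n02 : ((0, 2) : Fin 6 × Fin 6) ∉ A₂ := fun h => d3 m02 h
    have m23 := q4.resolve_right n41
    have m54 := q5.resolve_left n02
    rcases p3 with h | h
    · exact d4 h m23
    · exact d5 h m54

theorem isSplit_D6 : IsSplit D6 := by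
  refine ⟨{x | x = 0 ∨ x = 1}, ?_, ?_⟩
  · have h : ∀ u v : Fin 6, (u = 0 ∨ u = 1) → (v = 0 ∨ v = 1) → (u, v) ∉ D6 := by decide +kernel
    intro u hu v hv
    exact h u v hu hv
  · have h : ∀ u v : Fin 6, ¬ (u = 0 ∨ u = 1) → ¬ (v = 0 ∨ v = 1) → u ≠ v →
        (u, v) ∈ D6 ∨ (v, u) ∈ D6 := by decide +kernel
    intro u hu v hv huv
    exact h u v hu hv huv

/-- **Disproof of Q1 of MP_cb4251_co.**  It is not true that every finite loopless split digraph
that is 2-arc-strong and has all degrees at least 5 has a strong arc decomposition. -/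
theorem result :
    ¬ (∀ (V : Type) [Fintype V] [DecidableEq V] (A : Finset (V × V)),
        Loopless A → IsSplit A → ArcStrong 2 A → (∀ v, 5 ≤ degree A v) →
          HasStrongArcDecomposition A) := by
  intro h
  refine noDecomposition_D6 (h (Fin 6) D6 ?_ isSplit_D6 arcStrong_D6 ?_)
  · unfold Loopless
    decide +kernel
  · unfold degree
    decide +kernel

end Pool.Agent.Results.MP_cb4251_co.NoDecomposition
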